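import Pool.Agent.Y348.GW.F6
import Pool.Agent.Y348.GW.Crit

/-!
# Gromov–Witten variations that are not algebro-geometric, in every dimension `2n ≥ 6`

(1) A criterion for ALL closed aspherical symplectic manifolds `V` with vanishing first Chern class
(aspherical: `π₂(V) = 0`, so there are no nonconstant pseudoholomorphic spheres), of any dimension
`2n`: if the subring `R` of the even cohomology generated by `H²(V, ℂ)` does not satisfy Poincaré
duality (some `b ≠ 0` in `R` has `∫ a b = 0` for all `a` in `R`), then the variation with fibre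
`H^even(V, ℂ)` defined by the genus-zero Gromov–Witten invariants is not locally equivalent, at any
point, to a subquotient of a semisimple variation of Hodge structures.  The variations carried by
the cohomology of families of smooth projective varieties are semisimple (Deligne).

(2) For every `n ≥ 3` the variation of the `2n`-dimensional filiform nilmanifold `V = Γ \ G` is not
algebro-geometric at any point.  Here `G` is the nilpotent Lie group with left-invariant 1-forms
`e₀, …, e_{2n-1}` and `de₀ = de₁ = 0`, `deₖ = e₀ ∧ eₖ₋₁` (`2 ≤ k < 2n`).  It is parallelizable,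
aspherical, and symplectic with the invariant form
`ω = e₀ e_{2n-1} + ∑_{1 ≤ i < n} (-1)^(i+1) e_i e_{2n-1-i}`.  By Nomizu's theorem its even cohomology
ring is the even cohomology of the complex of invariant forms.
-/

set_option autoImplicit false

namespace Pool.Agent.Results.MP_a4dd1d_ag.AllDimensions

open H956GW (GWNumbers IsGWConnection IsLocallySubquotientOfSemisimple)

/-! ### The even cohomology ring of a closed connected oriented `2n`-manifold -/

/-- The even cohomology ring `H` of a closed connected oriented manifold of dimension `2n`, with its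
grading and with integration over the manifold. -/
structure EvenCohomology (n : ℕ) (H : Type) [CommRing H] [Algebra ℂ H] where
  /-- `deg k = H^{2k}` -/
  deg : ℕ → Submodule ℂ H
  deg_zero : deg 0 = Submodule.span ℂ {1}
  mul_mem : ∀ i j, ∀ x ∈ deg i, ∀ y ∈ deg j, x * y ∈ deg (i + j)
  deg_large : ∀ k, n < k → ∀ x ∈ deg k, x = 0
  /-- integration over the manifold -/
  integral : H →ₗ[ℂ] ℂ
  integral_deg : ∀ k, k ≠ n → ∀ x ∈ deg k, integral x = 0
  /-- integration is injective on `H^{2n}` -/
  integral_top : ∀ x ∈ deg n, integral x = 0 → x = 0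
  /-- Poincaré duality -/
  duality : ∀ x, (∀ y, integral (x * y) = 0) → x = 0

/-- The filtration by the classes of degree at most `p`. -/
def EvenCohomology.filtration {n : ℕ} {H : Type} [CommRing H] [Algebra ℂ H]
    (V : EvenCohomology n H) (p : ℤ) : Submodule ℂ H := ⨆ (k : ℕ) (_ : 2 * (k : ℤ) ≤ p), V.deg k

/-- The subring generated by `H²`. -/
def EvenCohomology.generatedByH2 {n : ℕ} {H : Type} [CommRing H] [Algebra ℂ H]
    (V : EvenCohomology n H) : Subalgebra ℂ H := Algebra.adjoin ℂ (V.deg 1 : Set H)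

/-- Some class in `H²`, such as the class of a symplectic form, has a nonzero `n`-th power. -/
def EvenCohomology.HasSymplecticClass {n : ℕ} {H : Type} [CommRing H] [Algebra ℂ H]
    (V : EvenCohomology n H) : Prop := ∃ w ∈ V.deg 1, V.integral (w ^ n) ≠ 0

/-- The subring generated by `H²` does not satisfy Poincaré duality. -/
def EvenCohomology.GeneratedPartFailsDuality {n : ℕ} {H : Type} [CommRing H] [Algebra ℂ H]
    (V : EvenCohomology n H) : Prop :=
  ∃ b ∈ V.generatedByH2, b ≠ 0 ∧ ∀ a ∈ V.generatedByH2, V.integral (a * b) = 0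

/-- For genus-zero Gromov–Witten numbers `g` of an aspherical manifold with even cohomology ring `H`,
integration `integral`, `H² = H2` and filtration by degree `F`, for the connection form `A` that
their pre-potential defines over `H²`, in linear coordinates `c` on `H²`, and for any point `t₀`,
the variation with fibre `H`, connection `d + A` and the filtration `F` is not, near `t₀`,
equivalent to a subquotient of a semisimple variation. -/
def NowhereAlgebroGeometric.{u₁, u₂, u₃, u₄} {H : Type} [CommRing H] [Algebra ℂ H]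
    (integral : H →ₗ[ℂ] ℂ) (H2 : Submodule ℂ H) (F : ℤ → Submodule ℂ H) : Prop :=
  ∀ (B : Type) [AddCommGroup B] (g : GWNumbers B H), g.IsAspherical integral →
  ∀ A : H → H → H → H, IsGWConnection integral H2 g.prepotential A →
  ∀ (S : Type) [NormedAddCommGroup S] [NormedSpace ℂ S] (c : S ≃ₗ[ℂ] H2) (t₀ : S),
    ¬ IsLocallySubquotientOfSemisimple.{u₁, u₂, u₃, u₄} (fun t v h => A (c t) (c v) h) F t₀

/-! ### The filiform nilmanifolds -/

/-- The space of left-invariant complex 1-forms, in the basis `e₀, …, e_{N-1}`. -/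
abbrev OneForms (N : ℕ) : Type := Fin N → ℂ

/-- The basic 1-form `e_k`, `k < N`. -/
def basisForm (N k : ℕ) : OneForms N := fun i => if i.val = k then 1 else 0

variable {L : Type} [Ring L] [Algebra ℂ L] {n : ℕ}

/-- `L`, with the linear map `ι` from the space of 1-forms, is the exterior algebra. -/
def IsExteriorAlgebra (ι : OneForms (2 * n) →ₗ[ℂ] L) : Prop :=
  ∃ f : ExteriorAlgebra ℂ (OneForms (2 * n)) ≃ₐ[ℂ] L, ∀ v, f (ExteriorAlgebra.ι ℂ v) = ι v

/-- The product `v₀ ∧ ⋯ ∧ vₖ₋₁` of 1-forms. -/
def wedge (ι : OneForms (2 * n) →ₗ[ℂ] L) {k : ℕ} (v : Fin k → OneForms (2 * n)) : L :=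
  (List.ofFn fun i => ι (v i)).prod

/-- The forms of degree `k`: the span of the products of `k` 1-forms. -/
def formsOfDegree (ι : OneForms (2 * n) →ₗ[ℂ] L) (k : ℕ) : Submodule ℂ L :=
  Submodule.span ℂ {z | ∃ v : Fin k → OneForms (2 * n), z = wedge ι v}

/-- The even cohomology ring `H` of the complex of invariant forms of the nilmanifold `V` of
dimension `2n`. The algebra `L` of forms is the exterior algebra on the 1-forms, with differential
`de₀ = de₁ = 0`, `deₖ = e₀ ∧ eₖ₋₁` for `2 ≤ k < 2n`; `H` is the algebra of even closed forms modulo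
exact forms. -/
structure NilmanifoldCohomology (ι : OneForms (2 * n) →ₗ[ℂ] L) (H : Type) [CommRing H]
    [Algebra ℂ H] where
  /-- the sign involution, `(-1) ^ k` on forms of degree `k` -/
  sgn : L →ₐ[ℂ] L
  sgn_one_form : ∀ v, sgn (ι v) = -ι v
  /-- the exterior derivative of invariant forms -/
  d : L →ₗ[ℂ] L
  d_one_form : ∀ k < 2 * n, d (ι (basisForm (2 * n) k)) =
    if 2 ≤ k then ι (basisForm (2 * n) 0) * ι (basisForm (2 * n) (k - 1)) else 0
  leibniz : ∀ x y, d (x * y) = d x * y + sgn x * d y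
  /-- the class of an even closed form -/
  cls : L → H
  cls_one : cls 1 = 1
  cls_mul : ∀ z w, sgn z = z → d z = 0 → sgn w = w → d w = 0 → cls (z * w) = cls z * cls w
  cls_add : ∀ z w, sgn z = z → d z = 0 → sgn w = w → d w = 0 → cls (z + w) = cls z + cls w
  cls_smul : ∀ (c : ℂ) (z : L), sgn z = z → d z = 0 → cls (c • z) = c • cls z
  cls_surjective : ∀ h : H, ∃ z, sgn z = z ∧ d z = 0 ∧ cls z = h
  cls_eq_zero : ∀ z, sgn z = z → d z = 0 → (cls z = 0 ↔ ∃ y, sgn y = -y ∧ d y = z)
  /-- the coefficient of `e₀ ∧ ⋯ ∧ e_{2n-1}` -/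
  top : L →ₗ[ℂ] ℂ
  top_self : ∀ v : Fin (2 * n) → OneForms (2 * n), top (wedge ι v) = Matrix.det (Matrix.of v)
  top_ne : ∀ k ≠ 2 * n, ∀ v : Fin k → OneForms (2 * n), top (wedge ι v) = 0
  /-- integration over `V` -/
  integral : H →ₗ[ℂ] ℂ
  integral_cls : ∀ z, sgn z = z → d z = 0 → integral (cls z) = top z

namespace NilmanifoldCohomology

variable {ι : OneForms (2 * n) →ₗ[ℂ] L} {H : Type} [CommRing H] [Algebra ℂ H]
  (V : NilmanifoldCohomology ι H)

/-- `H^{2k}(V, ℂ)`. -/
def deg (k : ℕ) : Submodule ℂ H :=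
  Submodule.span ℂ {h | ∃ z ∈ formsOfDegree ι (2 * k), V.sgn z = z ∧ V.d z = 0 ∧ V.cls z = h}

/-- The filtration by the classes of degree at most `p`. -/
def filtration (p : ℤ) : Submodule ℂ H := ⨆ (k : ℕ) (_ : 2 * (k : ℤ) ≤ p), V.deg k

/-- The class of the invariant symplectic form
`e₀ ∧ e_{2n-1} + ∑_{1 ≤ i < n} (-1)^(i+1) e_i ∧ e_{2n-1-i}`. -/
noncomputable def symplecticClass : H :=
  V.cls (ι (basisForm (2 * n) 0) * ι (basisForm (2 * n) (2 * n - 1)) +
    ∑ i ∈ Finset.Ico 1 n, ((-1 : ℂ) ^ (i + 1)) •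
      (ι (basisForm (2 * n) i) * ι (basisForm (2 * n) (2 * n - 1 - i))))

end NilmanifoldCohomology

/-! ### The model -/

attribute [-instance] H956GW.instCommRingSubtypeFormsMemSubalgebraComplexClosed
attribute [-instance] H956GW.instFiniteComplexForms

open Pool.Agent.Y348.GW

theorem wedge_eq {k : ℕ} (v : Fin k → OneForms (2 * n)) :
    wedge (ExteriorAlgebra.ι ℂ) v = ExteriorAlgebra.ιMulti ℂ k v := by
  rw [ExteriorAlgebra.ιMulti_apply]; rfl

theorem formsOfDegree_eq (k : ℕ) :
    formsOfDegree (n := n) (ExteriorAlgebra.ι ℂ) k = (⋀[ℂ]^k (OneForms (2 * n))) := by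
  rw [← ExteriorAlgebra.ιMulti_span_fixedDegree, formsOfDegree]
  congr 1
  ext z
  constructor
  · rintro ⟨v, rfl⟩; exact ⟨v, (wedge_eq v).symm⟩
  · rintro ⟨v, rfl⟩; exact ⟨v, (wedge_eq v).symm⟩

open Classical in
/-- The class of a form (zero if the form is not even and closed). -/
noncomputable def clsFun (z : Forms (2 * n)) : Hev (2 * n) :=
  if h : inv (2 * n) z = z ∧ d (2 * n) z = 0 then cls (2 * n) ⟨z, h⟩ else 0

theorem clsFun_eq {z : Forms (2 * n)} (h : inv (2 * n) z = z ∧ d (2 * n) z = 0) :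
    clsFun z = cls (2 * n) ⟨z, h⟩ := dif_pos h

/-- The model. -/
noncomputable def model (n : ℕ) :
    NilmanifoldCohomology (L := Forms (2 * n)) (n := n) (ExteriorAlgebra.ι ℂ) (Hev (2 * n)) where
  sgn := inv (2 * n)
  sgn_one_form := fun v => CliffordAlgebra.involute_ι v
  d := d (2 * n)
  d_one_form := fun k hk => d_e hk
  leibniz := fun x y => by rw [d_mul, add_comm]
  cls := clsFun
  cls_one := by
    have h : inv (2 * n) (1 : Forms (2 * n)) = 1 ∧ d (2 * n) (1 : Forms (2 * n)) = 0 :=
      ⟨map_one _, d_one⟩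
    rw [clsFun_eq h]
    exact map_one (cls (2 * n))
  cls_mul := fun z w hz hz' hw hw' => by
    have h : inv (2 * n) (z * w) = z * w ∧ d (2 * n) (z * w) = 0 :=
      (Closed (2 * n)).mul_mem ⟨hz, hz'⟩ ⟨hw, hw'⟩
    rw [clsFun_eq ⟨hz, hz'⟩, clsFun_eq ⟨hw, hw'⟩, clsFun_eq h, ← map_mul]
    rfl
  cls_add := fun z w hz hz' hw hw' => by
    have h : inv (2 * n) (z + w) = z + w ∧ d (2 * n) (z + w) = 0 :=
      (Closed (2 * n)).add_mem ⟨hz, hz'⟩ ⟨hw, hw'⟩
    rw [clsFun_eq ⟨hz, hz'⟩, clsFun_eq ⟨hw, hw'⟩, clsFun_eq h, ← map_add]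
    rfl
  cls_smul := fun c z hz hz' => by
    have h : inv (2 * n) (c • z) = c • z ∧ d (2 * n) (c • z) = 0 :=
      (Closed (2 * n)).smul_mem ⟨hz, hz'⟩ c
    rw [clsFun_eq ⟨hz, hz'⟩, clsFun_eq h, ← map_smul]
    rfl
  cls_surjective := fun h => by
    obtain ⟨z, rfl⟩ := cls_surjective h
    exact ⟨z, z.2.1, z.2.2, clsFun_eq z.2⟩
  cls_eq_zero := fun z hz hz' => by
    rw [clsFun_eq ⟨hz, hz'⟩]
    exact cls_eq_zero
  top := top (2 * n)
  top_self := fun v => by rw [wedge_eq]; exact top_ιMulti_self v
  top_ne := fun k hk v => by rw [wedge_eq]; exact top_ιMulti hk v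
  integral := integral (2 * n)
  integral_cls := fun z hz hz' => by
    rw [clsFun_eq ⟨hz, hz'⟩]; exact integral_cls _

theorem model_deg (n k : ℕ) : (model n).deg k = deg (2 * n) k := by
  unfold NilmanifoldCohomology.deg
  rw [formsOfDegree_eq]
  apply le_antisymm
  · rw [Submodule.span_le]
    rintro h ⟨z, hz, hz1, hz2, rfl⟩
    change clsFun z ∈ deg (2 * n) k
    rw [clsFun_eq ⟨hz1, hz2⟩]
    exact mem_deg.2 ⟨⟨z, ⟨hz1, hz2⟩⟩, hz, rfl⟩
  · intro h hh
    obtain ⟨z, hz, rfl⟩ := mem_deg.1 hh
    exact Submodule.subset_span ⟨z, hz, z.2.1, z.2.2, clsFun_eq z.2⟩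

theorem model_symplecticClass (n : ℕ) (hn : 2 ≤ n) :
    (model n).symplecticClass = cls (2 * n) (zω n hn) := by
  have h : (ExteriorAlgebra.ι ℂ (basisForm (2 * n) 0) *
      ExteriorAlgebra.ι ℂ (basisForm (2 * n) (2 * n - 1)) +
      ∑ i ∈ Finset.Ico 1 n, ((-1 : ℂ) ^ (i + 1)) •
      (ExteriorAlgebra.ι ℂ (basisForm (2 * n) i) *
        ExteriorAlgebra.ι ℂ (basisForm (2 * n) (2 * n - 1 - i)))) = ωf n := by
    have h2 : ωf n = sg 0 • (e (2 * n) 0 * e (2 * n) (2 * n - 1 - 0)) +
        ∑ i ∈ Finset.Ico 1 n, sg i • (e (2 * n) i * e (2 * n) (2 * n - 1 - i)) := by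
      rw [ωf, Finset.range_eq_Ico, Finset.sum_eq_sum_Ico_succ_bot (by omega)]
    have h3 : sg 0 = 1 := by simp [sg]
    rw [h2, h3, one_smul]
    congr 1
    refine Finset.sum_congr rfl fun i hi => ?_
    have h1 : i ≠ 0 := by have := (Finset.mem_Ico.1 hi).1; omega
    have h4 : sg i = (-1) ^ (i + 1) := by simp [sg, h1]
    rw [h4]
    rfl
  unfold NilmanifoldCohomology.symplecticClass
  rw [h]
  exact clsFun_eq (zω n hn).2

/-- **Main theorem.** -/
theorem result.{u₁, u₂, u₃, u₄} :
    -- (1) the criterion: let `H` be the (finite-dimensional) even cohomology ring of a closed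
    -- symplectic aspherical manifold of dimension `2n`, such that the subring generated by `H²` does
    -- not satisfy Poincaré duality; then its variation is nowhere algebro-geometric
    (∀ (n : ℕ) (H : Type) [CommRing H] [Algebra ℂ H] [Module.Finite ℂ H] (V : EvenCohomology n H),
      V.HasSymplecticClass → V.GeneratedPartFailsDuality →
      NowhereAlgebroGeometric.{u₁, u₂, u₃, u₄} V.integral (V.deg 1) V.filtration) ∧
    -- (2) for every `n ≥ 3`, there are an algebra `L` of invariant forms (an exterior algebra on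
    -- `2n` generators) and an even cohomology ring `H` of the filiform nilmanifold `V` of dimension
    -- `2n`, in which the `n`-th power of the class of `ω` is nonzero and Poincaré duality holds, and
    -- the variation is nowhere algebro-geometric
    ∀ n : ℕ, 3 ≤ n →
    ∃ (L : Type) (_ : Ring L) (_ : Algebra ℂ L) (ι : OneForms (2 * n) →ₗ[ℂ] L) (H : Type)
      (_ : CommRing H) (_ : Algebra ℂ H) (V : NilmanifoldCohomology ι H),
      IsExteriorAlgebra ι ∧ V.integral (V.symplecticClass ^ n) ≠ 0 ∧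
      (∀ u : H, (∀ v : H, V.integral (u * v) = 0) → u = 0) ∧
      NowhereAlgebroGeometric.{u₁, u₂, u₃, u₄} V.integral (V.deg 1) V.filtration := by
  constructor
  · rintro n H _ _ _ V ⟨w, hw, hwn⟩ ⟨b, hb, hb0, hbI⟩ B _ g hg A hA S _ _ c t₀
    exact criterion.{u₁, u₂, u₃, u₄} V.deg_zero V.mul_mem V.deg_large V.integral V.integral_deg
      V.integral_top V.duality w hw hwn b hb hb0 hbI B g hg A hA S c t₀
  · intro n hn
    have hN : Even (2 * n) := ⟨n, by ring⟩
    have hmodel : (model n).deg = deg (2 * n) := funext fun k => model_deg n k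
    refine ⟨Forms (2 * n), inferInstance, inferInstance, ExteriorAlgebra.ι ℂ, Hev (2 * n),
      inferInstance, inferInstance, model n, ⟨AlgEquiv.refl, fun _ => rfl⟩, ?_,
      eq_zero_of_integral_mul hN, ?_⟩
    · rw [model_symplecticClass n (by omega)]; exact integral_ω n (by omega)
    · have hfin : Module.Finite ℂ (Hev (2 * n)) := by
        have : FiniteDimensional ℂ (Closed (2 * n)) := inferInstanceAs
          (FiniteDimensional ℂ (Subalgebra.toSubmodule (Closed (2 * n))))
        exact Module.Finite.of_surjective (cls (2 * n)).toLinearMap cls_surjective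
      have htop : ∀ x ∈ deg (2 * n) n, integral (2 * n) x = 0 → x = 0 := by
        intro x hx hx0
        obtain ⟨z, hz, rfl⟩ := mem_deg.1 hx
        rw [integral_cls] at hx0
        have : z = 0 := Subtype.ext (eq_zero_of_top hz hx0)
        rw [this, map_zero]
      have hb : cls (2 * n) (z12 (2 * n)) ∈ Algebra.adjoin ℂ (deg (2 * n) 1 : Set (Hev (2 * n))) :=
        Algebra.subset_adjoin cls_z12_mem
      have h1 : NowhereAlgebroGeometric.{u₁, u₂, u₃, u₄} (integral (2 * n)) (deg (2 * n) 1)
          (filt (deg (2 * n))) := fun B _ g hg A hA S _ _ c t₀ =>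
        criterion.{u₁, u₂, u₃, u₄} (n := n) (dg := deg (2 * n)) deg_zero
          (fun i j x hx y hy => mul_mem_deg_add hx hy)
          (fun k hk x hx => deg_eq_bot (by omega) hx) (integral (2 * n))
          (fun k hk x hx => integral_deg (by omega) hx) htop (eq_zero_of_integral_mul hN)
          (cls (2 * n) (zω n (by omega))) (cls_zω_mem n (by omega)) (integral_ω n (by omega))
          (cls (2 * n) (z12 (2 * n))) hb (cls_z12_ne (by omega))
          (fun a ha => degFilt_le_ker (adjoin_mul_z12 hn (fun x hx => hx) ha)) B g hg A hA S c t₀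
      have h2 : (model n).filtration = filt (deg (2 * n)) := by
        rw [← hmodel]; rfl
      rw [h2, hmodel]
      exact h1

end Pool.Agent.Results.MP_a4dd1d_ag.AllDimensions
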